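import Pool.Agent.H88.Sick1

theorem Pool.Agent.Results.MP_1eaa31_an.No.result
    (K L : Type*) [TopologicalSpace K] [CompactSpace K] [T2Space K] [Infinite K]
    [TopologicalSpace L] [CompactSpace L] [T2Space L] [Infinite L]
    (E : Type*) [NormedAddCommGroup E] [Lattice E] [HasSolidNorm E] [IsOrderedAddMonoid E]
    [NormedSpace ℝ E] [PosSMulMono ℝ E] [CompleteSpace E] [TopologicalSpace.SeparableSpace E]
    (x : E) (_hx : 0 ≤ x) (T : C(K × L, ℝ) →ₗ[ℝ] E) (hinj : Function.Injective T)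
    (hran : Set.range T = {y | ∃ c : ℝ, 0 < c ∧ |y| ≤ c • x})
    (hsup : ∀ f g, T (f ⊔ g) = T f ⊔ T g) (hinf : ∀ f g, T (f ⊓ g) = T f ⊓ T g) :
    TopologicalSpace.MetrizableSpace (K × L) := by
  apply H88.Sick.main T hinj hsup hinf
  intro y h0 h1
  obtain ⟨c, c0, hc⟩ : T 1 ∈ {y | ∃ c : ℝ, 0 < c ∧ |y| ≤ c • x} := hran ▸ ⟨1, rfl⟩
  rw [hran]
  exact ⟨c, c0, by rw [abs_of_nonneg h0]; exact h1.trans ((le_abs_self _).trans hc)⟩
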